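import Pool.Agent.H97.NF.Quadric

/-!
# Regular proper models over the integers of quadrics of any dimension over number fields
-/

set_option autoImplicit false
open AlgebraicGeometry CategoryTheory

namespace Pool.Agent.Results.MP_4d1008_ag.NumberFieldQuadrics

/-- The dehomogenization `q(1, t₀, …, t_{n-1})` of the quadratic form
`q(x₀, …, x_n) = ∑ᵢⱼ S i j * xᵢ * xⱼ` with coefficient matrix `S`, as a polynomial in
`F[t₀, …, t_{n-1}]`. -/
noncomputable def affineQuadric {F : Type} [Field F] {n : ℕ}
    (S : Matrix (Fin (n + 1)) (Fin (n + 1)) F) : MvPolynomial (Fin n) F :=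
  ∑ i, ∑ j, MvPolynomial.C (S i j) *
    ((Fin.cons 1 MvPolynomial.X : Fin (n + 1) → MvPolynomial (Fin n) F) i *
      (Fin.cons 1 MvPolynomial.X : Fin (n + 1) → MvPolynomial (Fin n) F) j)

/-- The field of rational functions in `s` variables over the function field of the quadric
`q = 0` over `F`: the ring of fractions of `R[y₁, …, y_s]`, where
`R = F[t₀, …, t_{n-1}] / (q(1, t₀, …, t_{n-1}))` is the coordinate ring of the affine part. -/
abbrev QuadricFunctionField {F : Type} [Field F] {n : ℕ}
    (S : Matrix (Fin (n + 1)) (Fin (n + 1)) F) (s : ℕ) : Type :=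
  FractionRing (MvPolynomial (Fin s) (MvPolynomial (Fin n) F ⧸ Ideal.span {affineQuadric S}))

/-- Let `F` be a number field, let `S` be an invertible symmetric matrix of size `n + 1` over `F`,
let `s` be a natural number, and let `X` be an integral scheme of finite type over `Spec ℤ` whose
function field is the field of rational functions in `s` variables over the function field of the
quadric `∑ S i j * xᵢ * xⱼ = 0` over `F`. Then there is an integral scheme `X'`, proper over
`Spec ℤ`, all of whose local rings are regular (Krull dimension equals cotangent space dimension)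
and which has the same function field as `X`. -/
theorem result :
    ∀ (F : Type) [Field F] [NumberField F] (n s : ℕ)
      (S : Matrix (Fin (n + 1)) (Fin (n + 1)) F), S.IsSymm →
      S.det ≠ 0 → ∀ (X : Scheme.{0}) (_ : IsIntegral X) (f : X ⟶ Spec (CommRingCat.of ℤ)),
      LocallyOfFiniteType f → QuasiCompact f →
      Nonempty (X.functionField ≃+* QuadricFunctionField S s) →
      ∃ (X' : Scheme.{0}) (_ : IsIntegral X') (g : X' ⟶ Spec (CommRingCat.of ℤ)),
        IsProper g ∧
        (∀ x : X',
          (((Module.finrank (IsLocalRing.ResidueField (X'.presheaf.stalk x))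
              (IsLocalRing.CotangentSpace (X'.presheaf.stalk x)) : ℕ∞)) : WithBot ℕ∞)
            = ringKrullDim (X'.presheaf.stalk x)) ∧
        Nonempty (X'.functionField ≃+* X.functionField) := by
  intro F _ _ n s S hS hdet X hX f _ _ ⟨e⟩
  have hS' : (S + S.transpose).det ≠ 0 := by
    rw [hS.eq, ← two_smul F S, Matrix.det_smul]
    exact mul_ne_zero (pow_ne_zero _ two_ne_zero) hdet
  have h1 : Pool.Agent.H19.OG.FracCharts
      (MvPolynomial (Fin s) (MvPolynomial (Fin n) F ⧸ Ideal.span {affineQuadric S})) :=
    (Pool.Agent.H97.NF.fracCharts_quadric S hS').mvPolynomial s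
  exact (Pool.Agent.H97.NF.FracCharts.hasCharts' h1 e).exists_model

end Pool.Agent.Results.MP_4d1008_ag.NumberFieldQuadrics
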