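import Pool.Agent.H87.TanSum.Link

set_option autoImplicit false

namespace Pool.Agent.H87.Spare.SqrtLog

/-- With `A_n`, `B_n` the real and imaginary part of `∏_{k ≤ n} (1 + i k)`: the number of `n ≤ N`
with `A_n ∣ B_n`, and the number of `n ≤ N` with `n⁸ |A_n| ≤ |B_n|` or `n⁸ |B_n| ≤ |A_n|`, are both
`O(√(log N))`. -/
theorem result :
    (∃ C : ℝ, ∀ N : ℕ, 2 ≤ N →
      (((Finset.Icc 1 N).filter (fun n : ℕ =>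
        (∏ k ∈ Finset.Icc 1 n, (⟨1, (k : ℤ)⟩ : GaussianInt)).re ∣
          (∏ k ∈ Finset.Icc 1 n, (⟨1, (k : ℤ)⟩ : GaussianInt)).im)).card : ℝ) ≤
        C * Real.sqrt (Real.log N)) ∧
    (∃ C : ℝ, ∀ N : ℕ, 2 ≤ N →
      (((Finset.Icc 1 N).filter (fun n : ℕ =>
        (n : ℤ) ^ 8 * |(∏ k ∈ Finset.Icc 1 n, (⟨1, (k : ℤ)⟩ : GaussianInt)).re| ≤
            |(∏ k ∈ Finset.Icc 1 n, (⟨1, (k : ℤ)⟩ : GaussianInt)).im| ∨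
        (n : ℤ) ^ 8 * |(∏ k ∈ Finset.Icc 1 n, (⟨1, (k : ℤ)⟩ : GaussianInt)).im| ≤
            |(∏ k ∈ Finset.Icc 1 n, (⟨1, (k : ℤ)⟩ : GaussianInt)).re|)).card : ℝ) ≤
        C * Real.sqrt (Real.log N)) := by
  obtain ⟨C, -, h⟩ := Pool.Agent.H87.TanSum.count_integer
  obtain ⟨C', -, h'⟩ := Pool.Agent.H87.TanSum.count_extreme
  exact ⟨⟨C, h⟩, ⟨C', h'⟩⟩

end Pool.Agent.H87.Spare.SqrtLog
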